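import Pool.Agent.Helper44.GH.Stmts

/-!
# The local inequality (MP_d210aa_gt, module LOC)
-/

open Finset MeasureTheory Filter Topology Matrix
open scoped ENNReal ContDiff

namespace Pool.Agent.Helper8.GH

open Pool.Agent.Helper44.GF Pool.Agent.Helper44.GN Pool.Agent.Helper44.GH

theorem st_LOC (hABS : ST_ABS) (hROWB : ST_ROWB) (hMAF : ST_MAF) (hCNT : ST_CNT)
    (hVAR : ST_VAR) : ST_LOC := by
  intro n m Y _ _ s ζ δ r z V Z hMD hV hEX hZ
  obtain ⟨P, ρ, hRB, hF⟩ := hROWB n m Y s ζ δ r z V hMD hV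
  obtain ⟨hq, _, _, hB, hs⟩ := hCNT n m V Z hV
  obtain ⟨_, hM1, hM2, hM3⟩ := hMAF n m V Z hV
  -- continuity
  have hT : ContinuousOn (fun y => Matrix.trace (BB V Z y)) (Og n) := by
    simp only [Matrix.trace, Matrix.diag_apply]
    exact continuousOn_finsetSum _ (fun a _ => hB a a)
  have hTT : ContinuousOn (fun y => Matrix.trace (BB V Z y * BB V Z y)) (Og n) := by
    simp only [Matrix.trace, Matrix.diag_apply, Matrix.mul_apply]
    exact continuousOn_finsetSum _ (fun a _ =>
      continuousOn_finsetSum _ (fun b _ => (hB a b).mul (hB b a)))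
  -- the integrals
  have hI0 : ∀ a b, ∫ y, BB V Z y a b ∂P = 0 := by
    intro a b
    rw [hF (fun y => BB V Z y a b) (hB a b) (hM1 a b)]
    exact hEX a b
  have hI1 : ∫ y, (Matrix.trace (BB V Z y) ^ 2 + sgm V Z y) ∂P
      = EX V δ r z (fun y => Matrix.trace (BB V Z y) ^ 2 + sgm V Z y) :=
    hF (fun y => Matrix.trace (BB V Z y) ^ 2 + sgm V Z y) ((hT.pow 2).add hs) hM3
  have hI2 : ∫ y, (Matrix.trace (BB V Z y * BB V Z y) - Matrix.trace (BB V Z y) ^ 2) ∂P
      = EX V δ r z
        (fun y => Matrix.trace (BB V Z y * BB V Z y) - Matrix.trace (BB V Z y) ^ 2) :=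
    hF (fun y => Matrix.trace (BB V Z y * BB V Z y) - Matrix.trace (BB V Z y) ^ 2)
      (hTT.sub (hT.pow 2)) hM2
  obtain ⟨hA1, hA2⟩ := hABS n m P δ (ld δ r z 0) ρ V Z hRB hV hI0 hZ
  rw [hI1] at hA1
  rw [hI1, hI2] at hA2
  -- the trace has expectation zero
  have hE0 : EX V δ r z (fun y => Matrix.trace (BB V Z y)) = 0 := by
    have h1 : EX V δ r z (fun y => Matrix.trace (BB V Z y))
        = ∑ a, EX V δ r z (fun y => BB V Z y a a) := by
      unfold EX
      rw [← Finset.sum_div, Finset.sum_comm]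
      congr 1
      refine Finset.sum_congr rfl (fun η _ => ?_)
      simp only [Matrix.trace, Matrix.diag_apply, Finset.mul_sum]
    rw [h1]
    exact Finset.sum_eq_zero (fun a _ => hEX a a)
  have hA3 := hVAR n m Y s ζ δ r z V Z hMD hV hE0
  -- positivity of `MS`
  have hMS : 0 < MS V δ r z := by
    unfold MS
    refine Finset.sum_pos (fun η _ => ?_) ⟨∅, Finset.mem_univ _⟩
    unfold W1
    refine mul_pos ?_ (Real.rpow_pos_of_pos (hq _ ?_) _)
    · unfold zw
      exact Finset.prod_pos (fun x _ => hMD.z0 x.2)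
    · intro i
      unfold tau
      have h1 : 0 ≤ ∑ y, (if (i, y) ∈ η then r y else 0) := by
        refine Finset.sum_nonneg (fun y _ => ?_)
        split_ifs
        · exact (hMD.r0 y).le
        · exact le_rfl
      have h2 := hMD.d0
      linarith
  -- reduction to the sums
  unfold EX at hA1 hA2 hA3
  rw [← mul_div_assoc, div_le_div_iff_of_pos_right hMS] at hA2 hA3
  have hA1' := (div_pos_iff_of_pos_right hMS).1 hA1
  have e1 : ∑ η : Finset (Fin n × Y), W1 V δ r z η
        * (Matrix.trace (BB V Z (tau δ r η)) ^ 2 + sgm V Z (tau δ r η))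
      = ∑ η : Finset (Fin n × Y), W1 V δ r z η * Matrix.trace (BB V Z (tau δ r η)) ^ 2
        + ∑ η : Finset (Fin n × Y), W1 V δ r z η * sgm V Z (tau δ r η) := by
    rw [← Finset.sum_add_distrib]
    exact Finset.sum_congr rfl (fun η _ => by ring)
  have e2 : ∑ η : Finset (Fin n × Y), W1 V δ r z η
        * (Matrix.trace (BB V Z (tau δ r η) * BB V Z (tau δ r η))
          - Matrix.trace (BB V Z (tau δ r η)) ^ 2)
      = ∑ η : Finset (Fin n × Y), W1 V δ r z η
          * Matrix.trace (BB V Z (tau δ r η) * BB V Z (tau δ r η))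
        - ∑ η : Finset (Fin n × Y), W1 V δ r z η
          * Matrix.trace (BB V Z (tau δ r η)) ^ 2 := by
    rw [← Finset.sum_sub_distrib]
    exact Finset.sum_congr rfl (fun η _ => by ring)
  have e3 : M2 V Z δ r z
      = ∑ η : Finset (Fin n × Y), W1 V δ r z η * Matrix.trace (BB V Z (tau δ r η)) ^ 2
        + ∑ η : Finset (Fin n × Y), W1 V δ r z η
          * Matrix.trace (BB V Z (tau δ r η) * BB V Z (tau δ r η))
        - ∑ η : Finset (Fin n × Y), W1 V δ r z η * sgm V Z (tau δ r η) := by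
    unfold M2
    rw [← Finset.sum_add_distrib, ← Finset.sum_sub_distrib]
    exact Finset.sum_congr rfl (fun η _ => by ring)
  rw [e1] at hA1' hA2
  rw [e2] at hA2
  rw [e3]
  linarith

end Pool.Agent.Helper8.GH
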