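import Pool.Agent.Helper44.GH.Stmts

/-!
# The bounds on the marginals (MP_d210aa_gt, module ROWB)
-/

open Finset MeasureTheory Filter Topology Matrix
open scoped ENNReal ContDiff

namespace Pool.Agent.Helper8.GH

open Pool.Agent.Helper44.GF Pool.Agent.Helper44.GN Pool.Agent.Helper44.GH

/-- Bounded measurable functions of a coordinate are integrable. -/
private theorem int_coord {n : ℕ} (P : Measure (Fin n → ℝ)) [IsProbabilityMeasure P] {a b : ℝ}
    (bd : ∀ᵐ y ∂P, ∀ i, a ≤ y i ∧ y i ≤ b) (i : Fin n) (φ : ℝ → ℝ) (hφ : Measurable φ) (C : ℝ)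
    (hC : ∀ t, a ≤ t → t ≤ b → |φ t| ≤ C) : Integrable (fun y : Fin n → ℝ => φ (y i)) P := by
  refine Integrable.of_bound (hφ.comp (measurable_pi_apply i)).aestronglyMeasurable C ?_
  filter_upwards [bd] with y hy
  rw [Real.norm_eq_abs]
  exact hC _ (hy i).1 (hy i).2

theorem st_ROWB (hPM : ST_PM) (hMOM : ST_MOM) (hCTR : ST_CTR)
    (hGAM : Pool.Agent.Helper44.GH.ST_GAM)
    (hSLV : ST_SLV) : ST_ROWB := by
  intro n m Y _ _ s ζ δ r z V hMD hV
  obtain ⟨P, hP, hbd, hF, hφ, h0⟩ := hPM n m Y s ζ δ r z V hMD hV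
  have hd0 : 0 < δ := hMD.d0
  -- bounds of `ld`
  have hk : δ ≤ ld δ r z 0 := (hSLV Y s ζ δ r z hMD 0 le_rfl).2.2.1
  have hkpos : 0 < ld δ r z 0 := lt_of_lt_of_le hd0 hk
  -- integrability
  have hI : ∀ i : Fin n, Integrable (fun y : Fin n → ℝ => (y i)⁻¹) P := by
    intro i
    refine int_coord P hbd i (fun t => t⁻¹) measurable_inv δ⁻¹ ?_
    intro t ht _
    have htpos : 0 < t := lt_of_lt_of_le hd0 ht
    rw [abs_of_pos (inv_pos.2 htpos)]
    exact inv_anti₀ hd0 ht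
  -- positivity of the integral
  have hpos : ∀ i : Fin n, 0 < ∫ y, (y i)⁻¹ ∂P := by
    intro i
    have h1 : (ld δ r z 0)⁻¹ ≤ ∫ y, (y i)⁻¹ ∂P := by
      have h2 : ∫ _y : Fin n → ℝ, (ld δ r z 0)⁻¹ ∂P = (ld δ r z 0)⁻¹ := by
        rw [integral_const]
        simp
      rw [← h2]
      refine integral_mono_ae (integrable_const _) (hI i) ?_
      filter_upwards [hbd] with y hy
      exact inv_anti₀ (lt_of_lt_of_le hd0 (hy i).1) (hy i).2
    exact lt_of_lt_of_le (inv_pos.2 hkpos) h1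
  -- the main bounds for all `i`
  have hmain : ∀ i : Fin n,
      (∫ y, y i ∂P) * (∫ y, (y i)⁻¹ ∂P) ≤ 1076 / 1000 ∧
      ∫ y, ((y i)⁻¹) ^ 2 ∂P ≤ 1075 / 1000 * (∫ y, (y i)⁻¹ ∂P) ^ 2 ∧
      (∫ y, (y i) ^ 2 ∂P) * (∫ y, (y i)⁻¹ ∂P) ^ 2 ≤ 128 / 100 := by
    intro i
    by_cases hVi : V i = 0
    · have h1 := h0 i hVi
      have e1 : ∫ y, y i ∂P = ld δ r z 0 := by
        have : ∫ y, y i ∂P = ∫ _y : Fin n → ℝ, ld δ r z 0 ∂P := by
          refine integral_congr_ae ?_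
          filter_upwards [h1] with y hy
          exact hy
        rw [this, integral_const]
        simp
      have e2 : ∫ y, (y i)⁻¹ ∂P = (ld δ r z 0)⁻¹ := by
        have : ∫ y, (y i)⁻¹ ∂P = ∫ _y : Fin n → ℝ, (ld δ r z 0)⁻¹ ∂P := by
          refine integral_congr_ae ?_
          filter_upwards [h1] with y hy
          simp only [hy]
        rw [this, integral_const]
        simp
      have e3 : ∫ y, ((y i)⁻¹) ^ 2 ∂P = ((ld δ r z 0)⁻¹) ^ 2 := by
        have : ∫ y, ((y i)⁻¹) ^ 2 ∂P = ∫ _y : Fin n → ℝ, ((ld δ r z 0)⁻¹) ^ 2 ∂P := by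
          refine integral_congr_ae ?_
          filter_upwards [h1] with y hy
          simp only [hy]
        rw [this, integral_const]
        simp
      have e4 : ∫ y, (y i) ^ 2 ∂P = (ld δ r z 0) ^ 2 := by
        have : ∫ y, (y i) ^ 2 ∂P = ∫ _y : Fin n → ℝ, (ld δ r z 0) ^ 2 ∂P := by
          refine integral_congr_ae ?_
          filter_upwards [h1] with y hy
          simp only [hy]
        rw [this, integral_const]
        simp
      rw [e1, e2, e3, e4]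
      have h2 : ld δ r z 0 * (ld δ r z 0)⁻¹ = 1 := mul_inv_cancel₀ hkpos.ne'
      have h3 : ld δ r z 0 ^ 2 * (ld δ r z 0)⁻¹ ^ 2 = 1 := by
        rw [← mul_pow, h2, one_pow]
      have h4 : 0 ≤ (ld δ r z 0)⁻¹ ^ 2 := sq_nonneg _
      refine ⟨?_, ?_, ?_⟩
      · rw [h2]; norm_num
      · linarith
      · rw [h3]; norm_num
    · -- the density
      obtain ⟨hp0, hpc, hpI, hmpos, _, hm1, hm2, hm3⟩ := hMOM n m Y s ζ δ r z V hMD hV i hVi
      obtain ⟨hG1, hG2, hG3⟩ := hGAM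
      have hcont : ContinuousOn (fun t : ℝ => ld δ r z (t ^ 2)) (Set.Ioi 0) := by
        intro t _
        have h1 : ContinuousAt (ld δ r z) (t ^ 2) :=
          (hSLV Y s ζ δ r z hMD (t ^ 2) (sq_nonneg t)).2.1.continuousAt
        have h2 : ContinuousAt (fun t : ℝ => t ^ 2) t := (continuous_pow 2).continuousAt
        exact (ContinuousAt.comp (f := fun t : ℝ => t ^ 2) h1 h2).continuousWithinAt
      obtain ⟨c1, c2, c3⟩ := hCTR (p3 V δ r z i) (fun t => ld δ r z (t ^ 2)) δ (ld δ r z 0)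
        (fun t _ => hp0 t) hpc.continuousOn hcont hd0
        (fun t _ => ⟨(hSLV Y s ζ δ r z hMD (t ^ 2) (sq_nonneg t)).2.2.1,
          (hSLV Y s ζ δ r z hMD (t ^ 2) (sq_nonneg t)).2.2.2.1⟩)
        (fun t u ht htu => (hSLV Y s ζ δ r z hMD (t ^ 2) (sq_nonneg t)).2.2.2.2.2.2.2.2.1 (u ^ 2)
          (pow_le_pow_left₀ ht.le htu 2))
        (fun t u ht htu => (hSLV Y s ζ δ r z hMD t ht.le).2.2.2.2.2.2.2.2.2 u htu)
        hpI
      have e1 : ∫ y, y i ∂P = ∫ t in Set.Ioi (0 : ℝ), ld δ r z (t ^ 2) * p3 V δ r z i t :=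
        hφ i hVi (fun t => t) continuousOn_id
      have e2 : ∫ y, (y i)⁻¹ ∂P
          = ∫ t in Set.Ioi (0 : ℝ), (ld δ r z (t ^ 2))⁻¹ * p3 V δ r z i t :=
        hφ i hVi (fun t => t⁻¹) (continuousOn_inv₀.mono (fun t ht => ne_of_gt ht))
      have e3 : ∫ y, ((y i)⁻¹) ^ 2 ∂P
          = ∫ t in Set.Ioi (0 : ℝ), ((ld δ r z (t ^ 2))⁻¹) ^ 2 * p3 V δ r z i t :=
        hφ i hVi (fun t => (t⁻¹) ^ 2)
          ((continuousOn_inv₀.mono (fun t ht => ne_of_gt ht)).pow 2)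
      have e4 : ∫ y, (y i) ^ 2 ∂P
          = ∫ t in Set.Ioi (0 : ℝ), (ld δ r z (t ^ 2)) ^ 2 * p3 V δ r z i t :=
        hφ i hVi (fun t => t ^ 2) (continuous_pow 2).continuousOn
      rw [← e1, ← e2] at c1
      rw [← e2, ← e3] at c2
      rw [← e2, ← e4] at c3
      change _ ≤ mo V δ r z i (1 / 3) * mo V δ r z i (-(1 / 3)) at c1
      change _ * mo V δ r z i (1 / 3) ^ 2 ≤ mo V δ r z i (2 / 3) * _ at c2
      change _ ≤ mo V δ r z i (-(2 / 3)) * mo V δ r z i (1 / 3) ^ 2 at c3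
      have hmp : 0 < mo V δ r z i (1 / 3) := hmpos (1 / 3) (by norm_num)
      have hmp2 : 0 < mo V δ r z i (1 / 3) ^ 2 := by positivity
      refine ⟨c1.trans (hm1.trans hG1), ?_, c3.trans (hm3.trans hG3)⟩
      have h5 : mo V δ r z i (2 / 3) ≤ 1075 / 1000 * mo V δ r z i (1 / 3) ^ 2 :=
        hm2.trans (mul_le_mul_of_nonneg_right hG2 hmp2.le)
      have h6 : (∫ y, ((y i)⁻¹) ^ 2 ∂P) * mo V δ r z i (1 / 3) ^ 2
          ≤ (1075 / 1000 * (∫ y, (y i)⁻¹ ∂P) ^ 2) * mo V δ r z i (1 / 3) ^ 2 := by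
        refine c2.trans ?_
        have h7 := mul_le_mul_of_nonneg_right h5 (sq_nonneg (∫ y, (y i)⁻¹ ∂P))
        linarith
      exact le_of_mul_le_mul_right h6 hmp2
  refine ⟨P, fun i => (∫ y, (y i)⁻¹ ∂P)⁻¹, ?_, hF⟩
  refine
    { pr := hP
      a0 := hd0
      bd := hbd
      r0 := fun i => inv_pos.2 (hpos i)
      m1 := fun i => (inv_inv _).symm
      p1 := ?_
      m2 := ?_
      p2 := ?_ }
  · intro i
    have h1 := (hmain i).1
    have h2 := hpos i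
    rw [← div_eq_mul_inv, le_div_iff₀ h2]
    exact h1
  · intro i
    simp only [inv_inv]
    exact (hmain i).2.1
  · intro i
    have h1 := (hmain i).2.2
    have h2 : 0 < (∫ y, (y i)⁻¹ ∂P) ^ 2 := pow_pos (hpos i) 2
    rw [inv_pow, ← div_eq_mul_inv, le_div_iff₀ h2]
    exact h1

end Pool.Agent.Helper8.GH
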